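import Mathlib

/-!
Strong unique continuation at the vertex of a cone: set-up, the weight `w = (1 - |x|²)₊`, scaling
and the Green identity.
-/

open MeasureTheory Set Filter Topology Metric
open scoped Gradient RealInnerProductSpace

namespace Pool.Agent.TH337.CN

lemma hasDerivAt_posSq (t : ℝ) : HasDerivAt (fun t : ℝ => (max t 0) ^ 2) (2 * max t 0) t := by
  rcases lt_trichotomy t 0 with h | h | h
  · have h1 : (fun t : ℝ => (max t 0) ^ 2) =ᶠ[𝓝 t] fun _ => (0 : ℝ) := by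
      filter_upwards [Iio_mem_nhds h] with s hs
      have : max s 0 = 0 := max_eq_right (le_of_lt hs)
      simp [this]
    rw [max_eq_right h.le, mul_zero]
    exact (hasDerivAt_const t (0 : ℝ)).congr_of_eventuallyEq h1
  · subst h
    rw [hasDerivAt_iff_tendsto_slope_zero]
    simp only [max_self, mul_zero, zero_add, ne_eq, OfNat.ofNat_ne_zero, not_false_eq_true,
      zero_pow, sub_zero, smul_eq_mul]
    have h2 : Tendsto (fun t : ℝ => |t|) (𝓝[≠] 0) (𝓝 0) := by
      have : Tendsto (fun t : ℝ => |t|) (𝓝 0) (𝓝 |0|) := continuous_abs.tendsto 0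
      rw [abs_zero] at this
      exact this.mono_left nhdsWithin_le_nhds
    refine squeeze_zero_norm' ?_ h2
    filter_upwards [self_mem_nhdsWithin] with s hs
    have hs' : s ≠ 0 := hs
    rw [norm_mul, norm_inv, norm_pow, Real.norm_eq_abs, Real.norm_eq_abs]
    have h3 : |max s 0| ≤ |s| := by
      rcases le_total s 0 with h | h
      · rw [max_eq_right h, abs_zero]; exact abs_nonneg s
      · rw [max_eq_left h]
    have h4 : 0 < |s| := abs_pos.mpr hs'
    rw [inv_mul_le_iff₀ h4]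
    nlinarith [abs_nonneg (max s 0)]
  · have h1 : (fun t : ℝ => (max t 0) ^ 2) =ᶠ[𝓝 t] fun t => t ^ 2 := by
      filter_upwards [Ioi_mem_nhds h] with s hs
      have : max s 0 = s := max_eq_left (le_of_lt hs)
      simp [this]
    rw [max_eq_left h.le]
    have h2 : HasDerivAt (fun t : ℝ => t ^ 2) (2 * t) t := by simpa using hasDerivAt_pow 2 t
    exact h2.congr_of_eventuallyEq h1

variable {E : Type*} [NormedAddCommGroup E] [InnerProductSpace ℝ E]

/-- the weight -/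
noncomputable def w (x : E) : ℝ := max (1 - ‖x‖ ^ 2) 0

lemma w_cont : Continuous (w : E → ℝ) := by unfold w; fun_prop

lemma w_nonneg (x : E) : 0 ≤ w x := le_max_right _ _

lemma w_le_one (x : E) : w x ≤ 1 := max_le (by nlinarith [sq_nonneg ‖x‖]) zero_le_one

lemma w_pos {x : E} (hx : ‖x‖ < 1) : 0 < w x :=
  lt_max_of_lt_left (by nlinarith [norm_nonneg x])

lemma w_zero {x : E} (hx : 1 ≤ ‖x‖) : w x = 0 :=
  max_eq_right (by nlinarith [norm_nonneg x])

lemma eta_hasFDerivAt (x : E) :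
    HasFDerivAt (fun x : E => w x ^ 2) ((-(4 * w x)) • innerSL ℝ x) x := by
  have h1 : HasFDerivAt (fun x : E => 1 - ‖x‖ ^ 2) (-(2 • (innerSL ℝ x))) x := by
    have := ((hasStrictFDerivAt_norm_sq x).hasFDerivAt).const_sub (1 : ℝ)
    exact this
  have h2 := (hasDerivAt_posSq (1 - ‖x‖ ^ 2)).comp_hasFDerivAt x h1
  refine h2.congr_fderiv ?_
  ext v
  simp [w]
  ring

lemma eta_contDiff : ContDiff ℝ 1 (fun x : E => w x ^ 2) := by
  rw [contDiff_one_iff_hasFDerivAt]
  refine ⟨fun x => (-(4 * w x)) • innerSL ℝ x, ?_, fun x => eta_hasFDerivAt x⟩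
  have := w_cont (E := E)
  fun_prop

variable [FiniteDimensional ℝ E] [MeasurableSpace E] [BorelSpace E]

/-- Conical data: a homogeneous measure and a dilation invariant field of orthogonal projections
whose planes contain the radial direction. -/
structure Conical (μ : Measure E) (P : E → E →L[ℝ] E) (m : ℝ) : Prop where
  hom : ∀ a : ℝ, 0 < a → Measure.map (fun x => a • x) μ = ENNReal.ofReal (a ^ (-m)) • μ
  meas : AEStronglyMeasurable P μ
  symm : ∀ x v w, ⟪P x v, w⟫ = ⟪v, P x w⟫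
  idem : ∀ x v, P x (P x v) = P x v
  le : ∀ x v, ‖P x v‖ ≤ ‖v‖
  dil : ∀ a : ℝ, 0 < a → ∀ᵐ x ∂μ, P (a • x) = P x
  rad : ∀ᵐ x ∂μ, P x x = x

lemma Conical.integral_smul {μ : Measure E} {P : E → E →L[ℝ] E} {m : ℝ} (hc : Conical μ P m)
    {a : ℝ} (ha : 0 < a) (f : E → ℝ) :
    ∫ x, f (a • x) ∂μ = a ^ (-m) * ∫ x, f x ∂μ := by
  have h1 : ∫ x, f x ∂(Measure.map (fun x => a • x) μ) = ∫ x, f (a • x) ∂μ :=
    (Homeomorph.smulOfNeZero a ha.ne').measurableEmbedding.integral_map f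
  rw [← h1, hc.hom a ha, integral_smul_measure, smul_eq_mul,
    ENNReal.toReal_ofReal (Real.rpow_nonneg ha.le _)]

/-- harmonic functions on the ball of radius `R` -/
def Harm (μ : Measure E) (P : E → E →L[ℝ] E) (R : ℝ) (h : E → ℝ) : Prop :=
  ∀ φ : E → ℝ, ContDiff ℝ 1 φ → HasCompactSupport φ → tsupport φ ⊆ ball 0 R →
    ∫ x, ⟪P x (∇ h x), P x (∇ φ x)⟫ ∂μ = 0

lemma Harm.scale {μ : Measure E} {P : E → E →L[ℝ] E} {m R : ℝ} {h : E → ℝ}
    (hc : Conical μ P m) (hh : Harm μ P R h) {a : ℝ} (ha : 0 < a) {ψ : E → ℝ}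
    (hψ : ContDiff ℝ 1 ψ) (hψc : HasCompactSupport ψ) (hψs : tsupport ψ ⊆ ball 0 (R / a)) :
    ∫ x, ⟪P x (∇ h (a • x)), P x (∇ ψ x)⟫ ∂μ = 0 := by
  set e : E ≃ₜ E := Homeomorph.smulOfNeZero a⁻¹ (inv_ne_zero ha.ne') with he
  have he' : ∀ x, e x = a⁻¹ • x := fun x => rfl
  have hsm : ContDiff ℝ 1 (fun x : E => a⁻¹ • x) := contDiff_const_smul _
  have h1 := hh (fun x => ψ (a⁻¹ • x)) (hψ.comp hsm) (hψc.comp_homeomorph e) (by
    intro x hx
    have h2 : tsupport (fun x => ψ (a⁻¹ • x)) ⊆ e ⁻¹' (tsupport ψ) := by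
      refine closure_minimal ?_ ((isClosed_tsupport ψ).preimage e.continuous)
      intro y hy
      exact subset_tsupport ψ hy
    have h3 := hψs (h2 hx)
    rw [mem_ball_zero_iff, he', norm_smul, norm_inv, Real.norm_eq_abs, abs_of_pos ha,
      inv_mul_lt_iff₀ ha, mul_div_cancel₀ _ ha.ne'] at h3
    rwa [mem_ball_zero_iff])
  have h2 := hc.integral_smul ha (fun x => ⟪P x (∇ h x), P x (∇ (fun x => ψ (a⁻¹ • x)) x)⟫)
  rw [h1, mul_zero] at h2
  have hg : ∀ y, ∇ (fun x => ψ (a⁻¹ • x)) y = a⁻¹ • ∇ ψ (a⁻¹ • y) := by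
    intro y
    have hd : DifferentiableAt ℝ ψ (a⁻¹ • y) := (hψ.differentiable one_ne_zero) _
    have h3 : HasFDerivAt (fun x => ψ (a⁻¹ • x))
        ((fderiv ℝ ψ (a⁻¹ • y)).comp (a⁻¹ • ContinuousLinearMap.id ℝ E)) y := by
      refine HasFDerivAt.comp y hd.hasFDerivAt ?_
      exact (hasFDerivAt_id y).const_smul a⁻¹
    refine ext_inner_right ℝ fun v => ?_
    rw [inner_gradient_left, h3.fderiv, inner_smul_left, inner_gradient_left]
    simp
  have h4 : ∫ x, a⁻¹ * ⟪P x (∇ h (a • x)), P x (∇ ψ x)⟫ ∂μ = 0 := by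
    rw [← h2]
    refine integral_congr_ae ?_
    filter_upwards [hc.dil a ha] with x hx
    rw [hg, hx, smul_smul, inv_mul_cancel₀ ha.ne', one_smul, map_smul, inner_smul_right]
  rw [integral_const_mul] at h4
  exact (mul_eq_zero.mp h4).resolve_left (inv_ne_zero ha.ne')

end Pool.Agent.TH337.CN
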