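import Pool.Agent.TH337.CN.Green

/-!
The bilinear form `B(a,b) = ∫ (1-|x|²)₊ h(ax) h(bx) dμ` depends only on `ab`; log-convexity.
-/

open MeasureTheory Set Filter Topology Metric
open scoped Gradient RealInnerProductSpace

namespace Pool.Agent.TH337.CN

variable {E : Type*} [NormedAddCommGroup E] [InnerProductSpace ℝ E]
  [FiniteDimensional ℝ E] [MeasurableSpace E] [BorelSpace E]
  {μ : Measure E} {P : E → E →L[ℝ] E} {m R : ℝ} {h : E → ℝ}

/-- the bilinear form -/
noncomputable def B (μ : Measure E) (h : E → ℝ) (a b : ℝ) : ℝ :=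
  ∫ x, w x * (h (a • x) * h (b • x)) ∂μ

lemma integral_eq_restrict (f : E → ℝ) :
    ∫ x, w x * f x ∂μ = ∫ x in closedBall 0 1, w x * f x ∂μ := by
  symm
  refine setIntegral_eq_integral_of_forall_compl_eq_zero fun x hx => ?_
  rw [mem_closedBall_zero_iff, not_le] at hx
  rw [w_zero hx.le, zero_mul]

lemma cont_scale (hC : ContDiffOn ℝ 1 h (ball 0 R)) {a : ℝ} (ha : 0 < a) (haR : a < R) :
    ContinuousOn (fun x : E => h (a • x)) (closedBall 0 1) :=
  hC.continuousOn.comp (continuous_const_smul a).continuousOn (smul_maps ha haR)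

lemma integrableOn_B [IsFiniteMeasureOnCompacts μ] (hC : ContDiffOn ℝ 1 h (ball 0 R)) {a b : ℝ}
    (ha : 0 < a) (haR : a < R) (hb : 0 < b) (hbR : b < R) :
    IntegrableOn (fun x : E => w x * (h (a • x) * h (b • x))) (closedBall 0 1) μ :=
  (w_cont.continuousOn.mul ((cont_scale hC ha haR).mul (cont_scale hC hb hbR))
    ).integrableOn_compact (isCompact_closedBall _ _)

lemma integrable_B [IsFiniteMeasureOnCompacts μ] (hC : ContDiffOn ℝ 1 h (ball 0 R)) {a b : ℝ}
    (ha : 0 < a) (haR : a < R) (hb : 0 < b) (hbR : b < R) :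
    Integrable (fun x : E => w x * (h (a • x) * h (b • x))) μ := by
  rw [← integrableOn_iff_integrable_of_support_subset (s := closedBall (0 : E) 1)]
  · exact integrableOn_B hC ha haR hb hbR
  · intro x hx
    by_contra hx'
    rw [mem_closedBall_zero_iff, not_le] at hx'
    exact hx (by simp [w_zero hx'.le])

lemma B_hasDerivAt [IsFiniteMeasureOnCompacts μ] (hc : Conical μ P m) (hh : Harm μ P R h)
    (hC : ContDiffOn ℝ 1 h (ball 0 R)) {t : ℝ} (ht : 0 < t) {s : ℝ}
    (hs : t * Real.exp |s| < R) :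
    HasDerivAt (fun s => B μ h (t * Real.exp s) (t * Real.exp (-s))) 0 s := by
  -- notation
  set α : ℝ → ℝ := fun s => t * Real.exp s with hα
  set β : ℝ → ℝ := fun s => t * Real.exp (-s) with hβ
  have hαd : ∀ s, HasDerivAt α (α s) s := fun s => (Real.hasDerivAt_exp s).const_mul t
  have hβd : ∀ s, HasDerivAt β (-(β s)) s := by
    intro s
    have h1 : HasDerivAt (fun s : ℝ => Real.exp (-s)) (Real.exp (-s) * (-1)) s :=
      (Real.hasDerivAt_exp (-s)).comp s (hasDerivAt_neg s)
    have h2 := h1.const_mul t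
    refine h2.congr_deriv ?_
    simp only [hβ]; ring
  have hα0 : ∀ s, 0 < α s := fun s => mul_pos ht (Real.exp_pos _)
  have hβ0 : ∀ s, 0 < β s := fun s => mul_pos ht (Real.exp_pos _)
  have hαle : ∀ s, α s ≤ t * Real.exp |s| := fun s =>
    mul_le_mul_of_nonneg_left (Real.exp_le_exp.mpr (le_abs_self s)) ht.le
  have hβle : ∀ s, β s ≤ t * Real.exp |s| := fun s =>
    mul_le_mul_of_nonneg_left (Real.exp_le_exp.mpr (neg_le_abs s)) ht.le
  -- a radius
  obtain ⟨r, hr1, hr2⟩ := exists_between hs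
  have hr0 : 0 < r := lt_trans (mul_pos ht (Real.exp_pos _)) hr1
  have hN : {σ : ℝ | t * Real.exp |σ| < r} ∈ 𝓝 s := by
    refine (isOpen_lt ?_ continuous_const).mem_nhds hr1
    fun_prop
  -- bounds
  have hball : closedBall (0 : E) r ⊆ ball 0 R := closedBall_subset_ball hr2
  obtain ⟨C1, hC1⟩ := (isCompact_closedBall (0 : E) r).exists_bound_of_continuousOn
    (hC.continuousOn.mono hball)
  obtain ⟨C2, hC2⟩ := (isCompact_closedBall (0 : E) r).exists_bound_of_continuousOn
    ((continuousOn_gradient hC).mono hball)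
  have hC1' : 0 ≤ C1 := (norm_nonneg _).trans (hC1 0 (mem_closedBall_self hr0.le))
  have hC2' : 0 ≤ C2 := (norm_nonneg _).trans (hC2 0 (mem_closedBall_self hr0.le))
  have hmem : ∀ {c : ℝ}, 0 < c → c < r → ∀ x ∈ closedBall (0 : E) 1, c • x ∈ closedBall (0 : E) r := by
    intro c hc hcr x hx
    rw [mem_closedBall_zero_iff] at hx ⊢
    rw [norm_smul, Real.norm_eq_abs, abs_of_pos hc]
    nlinarith [norm_nonneg x]
  set F : ℝ → E → ℝ := fun σ x => w x * (h (α σ • x) * h (β σ • x)) with hF
  set F' : ℝ → E → ℝ := fun σ x => w x * (h (β σ • x) * (α σ * ⟪∇ h (α σ • x), x⟫)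
    - h (α σ • x) * (β σ * ⟪∇ h (β σ • x), x⟫)) with hF'
  have key : Integrable (F' s) (μ.restrict (closedBall 0 1)) ∧
      HasDerivAt (fun σ => ∫ x in closedBall 0 1, F σ x ∂μ)
        (∫ x in closedBall 0 1, F' s x ∂μ) s := by
    refine hasDerivAt_integral_of_dominated_loc_of_deriv_le (bound := fun _ => 2 * (C1 * (r * C2)))
      hN ?_ ?_ ?_ ?_ ?_ ?_
    · filter_upwards [hN] with σ hσ
      have hσ' : t * Real.exp |σ| < r := hσ
      exact (integrableOn_B hC (hα0 σ) (((hαle σ).trans_lt hσ').trans hr2) (hβ0 σ)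
        (((hβle σ).trans_lt hσ').trans hr2)).aestronglyMeasurable
    · exact integrableOn_B hC (hα0 s) (((hαle s).trans_lt hr1).trans hr2) (hβ0 s)
        (((hβle s).trans_lt hr1).trans hr2)
    · have ha : α s < R := ((hαle s).trans_lt hr1).trans hr2
      have hb : β s < R := ((hβle s).trans_lt hr1).trans hr2
      have g1 : ContinuousOn (fun x : E => ∇ h (α s • x)) (closedBall 0 1) :=
        (continuousOn_gradient hC).comp (continuous_const_smul _).continuousOn
          (smul_maps (hα0 s) ha)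
      have g2 : ContinuousOn (fun x : E => ∇ h (β s • x)) (closedBall 0 1) :=
        (continuousOn_gradient hC).comp (continuous_const_smul _).continuousOn
          (smul_maps (hβ0 s) hb)
      have hcont : ContinuousOn (F' s) (closedBall 0 1) :=
        w_cont.continuousOn.mul
          (((cont_scale hC (hβ0 s) hb).mul (continuousOn_const.mul (g1.inner continuousOn_id))).sub
          ((cont_scale hC (hα0 s) ha).mul (continuousOn_const.mul (g2.inner continuousOn_id))))
      exact hcont.aestronglyMeasurable measurableSet_closedBall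
    · filter_upwards [ae_restrict_mem measurableSet_closedBall] with x hx σ hσ
      have hσ' : t * Real.exp |σ| < r := hσ
      have ha : α σ < r := (hαle σ).trans_lt hσ'
      have hb : β σ < r := (hβle σ).trans_lt hσ'
      have m1 := hmem (hα0 σ) ha x hx
      have m2 := hmem (hβ0 σ) hb x hx
      have hx1 : ‖x‖ ≤ 1 := mem_closedBall_zero_iff.mp hx
      have e1 : |⟪∇ h (α σ • x), x⟫| ≤ C2 := by
        refine (abs_real_inner_le_norm _ _).trans ?_
        have := hC2 _ m1
        nlinarith [norm_nonneg x, norm_nonneg (∇ h (α σ • x))]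
      have e2 : |⟪∇ h (β σ • x), x⟫| ≤ C2 := by
        refine (abs_real_inner_le_norm _ _).trans ?_
        have := hC2 _ m2
        nlinarith [norm_nonneg x, norm_nonneg (∇ h (β σ • x))]
      have f1 : |h (α σ • x)| ≤ C1 := hC1 _ m1
      have f2 : |h (β σ • x)| ≤ C1 := hC1 _ m2
      have T : ∀ {p q c : ℝ}, |p| ≤ C1 → |q| ≤ C2 → 0 < c → c < r → |p * (c * q)| ≤ C1 * (r * C2) := by
        intro p q c hp hq hc0 hcr
        rw [abs_mul, abs_mul, abs_of_pos hc0]
        exact mul_le_mul hp (mul_le_mul hcr.le hq (abs_nonneg _) hr0.le)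
          (mul_nonneg hc0.le (abs_nonneg _)) hC1'
      have t1 := T f2 e1 (hα0 σ) ha
      have t2 := T f1 e2 (hβ0 σ) hb
      simp only [hF', norm_mul, Real.norm_eq_abs, abs_of_nonneg (w_nonneg x)]
      have t3 := (abs_sub (h (β σ • x) * (α σ * ⟪∇ h (α σ • x), x⟫))
        (h (α σ • x) * (β σ * ⟪∇ h (β σ • x), x⟫)))
      have t4 : |h (β σ • x) * (α σ * ⟪∇ h (α σ • x), x⟫)
        - h (α σ • x) * (β σ * ⟪∇ h (β σ • x), x⟫)| ≤ 2 * (C1 * (r * C2)) := by linarith
      nlinarith [w_le_one x, w_nonneg x, abs_nonneg (h (β σ • x) * (α σ * ⟪∇ h (α σ • x), x⟫)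
        - h (α σ • x) * (β σ * ⟪∇ h (β σ • x), x⟫))]
    · exact integrableOn_const (isCompact_closedBall (0 : E) 1).measure_lt_top.ne
    · filter_upwards [ae_restrict_mem measurableSet_closedBall] with x hx σ hσ
      have hσ' : t * Real.exp |σ| < r := hσ
      have ha : α σ < r := (hαle σ).trans_lt hσ'
      have hb : β σ < r := (hβle σ).trans_lt hσ'
      have m1 := hball (hmem (hα0 σ) ha x hx)
      have m2 := hball (hmem (hβ0 σ) hb x hx)
      have d1 : HasFDerivAt h (fderiv ℝ h (α σ • x)) (α σ • x) :=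
        ((hC.contDiffAt (isOpen_ball.mem_nhds m1)).differentiableAt one_ne_zero).hasFDerivAt
      have d2 : HasFDerivAt h (fderiv ℝ h (β σ • x)) (β σ • x) :=
        ((hC.contDiffAt (isOpen_ball.mem_nhds m2)).differentiableAt one_ne_zero).hasFDerivAt
      have c1 : HasDerivAt (fun σ => α σ • x) (α σ • x) σ := (hαd σ).smul_const x
      have c2 : HasDerivAt (fun σ => β σ • x) ((-(β σ)) • x) σ := (hβd σ).smul_const x
      have k1 : HasDerivAt (fun σ => h (α σ • x)) (α σ * ⟪∇ h (α σ • x), x⟫) σ := by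
        have := d1.comp_hasDerivAt σ c1
        refine this.congr_deriv ?_
        rw [map_smul, smul_eq_mul, inner_gradient_left]
      have k2 : HasDerivAt (fun σ => h (β σ • x)) (-(β σ * ⟪∇ h (β σ • x), x⟫)) σ := by
        have := d2.comp_hasDerivAt σ c2
        refine this.congr_deriv ?_
        rw [map_smul, smul_eq_mul, inner_gradient_left]
        ring
      have k3 := (k1.mul k2).const_mul (w x)
      refine k3.congr_deriv ?_
      simp only [hF']
      ring
  have hz : ∫ x in closedBall 0 1, F' s x ∂μ = 0 := by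
    rw [← integral_eq_restrict (μ := μ) (fun x => h (β s • x) * (α s * ⟪∇ h (α s • x), x⟫)
      - h (α s • x) * (β s * ⟪∇ h (β s • x), x⟫))]
    exact green hc hh hC (hα0 s) (hβ0 s) (((hαle s).trans_lt hr1).trans hr2)
      (((hβle s).trans_lt hr1).trans hr2)
  have hd := key.2
  rw [hz] at hd
  have he : (fun s => B μ h (t * Real.exp s) (t * Real.exp (-s)))
      = fun σ => ∫ x in closedBall 0 1, F σ x ∂μ := by
    funext σ
    exact integral_eq_restrict (μ := μ) _
  rw [he]
  exact hd

lemma B_const [IsFiniteMeasureOnCompacts μ] (hc : Conical μ P m) (hh : Harm μ P R h)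
    (hC : ContDiffOn ℝ 1 h (ball 0 R)) {t : ℝ} (ht : 0 < t) {s : ℝ} (hs0 : 0 ≤ s)
    (hs : t * Real.exp s < R) :
    B μ h (t * Real.exp s) (t * Real.exp (-s)) = B μ h t t := by
  have hd : ∀ σ ∈ Icc 0 s, HasDerivAt (fun s => B μ h (t * Real.exp s) (t * Real.exp (-s))) 0 σ := by
    intro σ hσ
    refine B_hasDerivAt hc hh hC ht ?_
    rw [abs_of_nonneg hσ.1]
    exact (mul_le_mul_of_nonneg_left (Real.exp_le_exp.mpr hσ.2) ht.le).trans_lt hs
  have h1 := constant_of_has_deriv_right_zero
    (f := fun s => B μ h (t * Real.exp s) (t * Real.exp (-s))) (a := 0) (b := s)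
    (fun σ hσ => (hd σ hσ).continuousAt.continuousWithinAt)
    (fun σ hσ => (hd σ ⟨hσ.1, hσ.2.le⟩).hasDerivWithinAt) s ⟨hs0, le_rfl⟩
  simpa using h1

/-- `B(a,b) = B(t,t)` if `ab = t²` -/
lemma B_eq [IsFiniteMeasureOnCompacts μ] (hc : Conical μ P m) (hh : Harm μ P R h)
    (hC : ContDiffOn ℝ 1 h (ball 0 R)) {a b t : ℝ} (ht : 0 < t)
    (hta : t ≤ a) (haR : a < R) (hab : a * b = t ^ 2) :
    B μ h a b = B μ h t t := by
  have ha : 0 < a := ht.trans_le hta
  have h1 : t * Real.exp (Real.log (a / t)) = a := by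
    rw [Real.exp_log (div_pos ha ht), mul_div_cancel₀ _ ht.ne']
  have h2 : t * Real.exp (-Real.log (a / t)) = b := by
    rw [Real.exp_neg, Real.exp_log (div_pos ha ht), inv_div]
    field_simp
    nlinarith
  have h3 := B_const hc hh hC ht (s := Real.log (a / t))
    (Real.log_nonneg ((one_le_div ht).mpr hta)) (by rw [h1]; exact haR)
  rwa [h1, h2] at h3

lemma B_cs [IsFiniteMeasureOnCompacts μ] (hC : ContDiffOn ℝ 1 h (ball 0 R)) {a b : ℝ}
    (ha : 0 < a) (haR : a < R) (hb : 0 < b) (hbR : b < R) :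
    B μ h a b ^ 2 ≤ B μ h a a * B μ h b b := by
  have iaa := integrable_B (μ := μ) hC ha haR ha haR
  have iab := integrable_B (μ := μ) hC ha haR hb hbR
  have ibb := integrable_B (μ := μ) hC hb hbR hb hbR
  have h1 : ∀ l : ℝ, 0 ≤ B μ h b b * (l * l) + (2 * B μ h a b) * l + B μ h a a := by
    intro l
    have e : B μ h b b * (l * l) + (2 * B μ h a b) * l + B μ h a a
        = ∫ x, w x * (h (a • x) + l * h (b • x)) ^ 2 ∂μ := by
      unfold B
      have e2 : ∫ x, w x * (h (a • x) + l * h (b • x)) ^ 2 ∂μ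
          = ∫ x, (w x * (h (b • x) * h (b • x)) * (l * l)
            + w x * (h (a • x) * h (b • x)) * (2 * l) + w x * (h (a • x) * h (a • x))) ∂μ := by
        refine integral_congr_ae (Eventually.of_forall fun x => ?_)
        simp only
        ring
      have j1 := ibb.mul_const (l * l)
      have j2 := iab.mul_const (2 * l)
      have j12 : Integrable (fun x => w x * (h (b • x) * h (b • x)) * (l * l)
          + w x * (h (a • x) * h (b • x)) * (2 * l)) μ := j1.add j2
      rw [e2, integral_add j12 iaa, integral_add j1 j2, integral_mul_const,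
        integral_mul_const]
      ring
    rw [e]
    exact integral_nonneg fun x => mul_nonneg (w_nonneg x) (sq_nonneg _)
  have h2 := discrim_le_zero h1
  unfold discrim at h2
  nlinarith

/-- three balls with optimal exponents -/
lemma logconvex [IsFiniteMeasureOnCompacts μ] (hc : Conical μ P m) (hh : Harm μ P R h)
    (hC : ContDiffOn ℝ 1 h (ball 0 R)) {a b t : ℝ} (hb : 0 < b) (ht : 0 < t)
    (hta : t ≤ a) (haR : a < R) (hab : a * b = t ^ 2) :
    B μ h t t ^ 2 ≤ B μ h a a * B μ h b b := by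
  have ha : 0 < a := ht.trans_le hta
  have hbR : b < R := by
    have : b ≤ t := by
      by_contra hne
      push Not at hne
      nlinarith
    linarith
  rw [← B_eq hc hh hC ht hta haR hab]
  exact B_cs hC ha haR hb hbR

end Pool.Agent.TH337.CN
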