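import Pool.Agent.TH337.CN.Basic

/-!
The Green identity and the invariance of the bilinear form.
-/

open MeasureTheory Set Filter Topology Metric
open scoped Gradient RealInnerProductSpace

namespace Pool.Agent.TH337.CN

variable {E : Type*} [NormedAddCommGroup E] [InnerProductSpace ℝ E]
  [FiniteDimensional ℝ E] [MeasurableSpace E] [BorelSpace E]
  {μ : Measure E} {P : E → E →L[ℝ] E} {m R : ℝ} {h : E → ℝ}

/-- the test function `(1-|x|²)₊² h(bx)` -/
noncomputable def psi (h : E → ℝ) (b : ℝ) (x : E) : ℝ := w x ^ 2 * h (b • x)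

lemma smul_mem_ball {b : ℝ} (hb : 0 < b) {r : ℝ} {x : E} (hx : ‖x‖ < r / b) :
    b • x ∈ ball (0 : E) r := by
  rw [mem_ball_zero_iff, norm_smul, Real.norm_eq_abs, abs_of_pos hb]
  rwa [lt_div_iff₀' hb] at hx

lemma smul_mem_ball' {b : ℝ} (hb : 0 < b) (hbR : b < R) {x : E} (hx : ‖x‖ ≤ 1) :
    b • x ∈ ball (0 : E) R :=
  smul_mem_ball hb (hx.trans_lt ((one_lt_div hb).mpr hbR))

lemma psi_eventually_zero {b : ℝ} {x : E} (hx : 1 < ‖x‖) : psi h b =ᶠ[𝓝 x] fun _ => 0 := by
  have h1 : {y : E | 1 < ‖y‖} ∈ 𝓝 x := (isOpen_lt continuous_const continuous_norm).mem_nhds hx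
  filter_upwards [h1] with y hy
  have hy' : 1 < ‖y‖ := hy
  simp [psi, w_zero hy'.le]

lemma psi_contDiff (hC : ContDiffOn ℝ 1 h (ball 0 R)) {b : ℝ} (hb : 0 < b) (hbR : b < R) :
    ContDiff ℝ 1 (psi h b) := by
  rw [contDiff_iff_contDiffAt]
  intro x
  rcases le_or_gt ‖x‖ 1 with hx | hx
  · have h1 : ContDiffAt ℝ 1 h (b • x) :=
      hC.contDiffAt (isOpen_ball.mem_nhds (smul_mem_ball' hb hbR hx))
    have h2 : ContDiffAt ℝ 1 (fun x : E => b • x) x := (contDiff_const_smul b).contDiffAt
    exact (eta_contDiff.contDiffAt).mul (h1.comp x h2)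
  · exact contDiffAt_const.congr_of_eventuallyEq (psi_eventually_zero hx)

lemma psi_tsupport (b : ℝ) : tsupport (psi h b) ⊆ closedBall 0 1 := by
  refine closure_minimal ?_ isClosed_closedBall
  intro x hx
  by_contra hx'
  rw [mem_closedBall_zero_iff, not_le] at hx'
  exact hx (by simp [psi, w_zero hx'.le])

lemma psi_compact (b : ℝ) : HasCompactSupport (psi h b) :=
  HasCompactSupport.of_support_subset_isCompact (isCompact_closedBall (0 : E) 1)
    ((subset_tsupport _).trans (psi_tsupport b))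

lemma psi_gradient (hC : ContDiffOn ℝ 1 h (ball 0 R)) {b : ℝ} (hb : 0 < b) (hbR : b < R) (x : E) :
    ∇ (psi h b) x = (-(4 * w x) * h (b • x)) • x + (w x ^ 2 * b) • ∇ h (b • x) := by
  rcases le_or_gt ‖x‖ 1 with hx | hx
  · have h1 : DifferentiableAt ℝ h (b • x) :=
      (hC.contDiffAt (isOpen_ball.mem_nhds (smul_mem_ball' hb hbR hx))).differentiableAt
        one_ne_zero
    have h2 : HasFDerivAt (fun x => h (b • x))
        ((fderiv ℝ h (b • x)).comp (b • ContinuousLinearMap.id ℝ E)) x := by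
      refine HasFDerivAt.comp x h1.hasFDerivAt ?_
      exact (hasFDerivAt_id x).const_smul b
    have h3 := (eta_hasFDerivAt x).mul h2
    have h4 : fderiv ℝ (psi h b) x = _ := h3.fderiv
    refine ext_inner_right ℝ fun v => ?_
    rw [inner_gradient_left, h4, inner_add_left, inner_smul_left, inner_smul_left,
      inner_gradient_left]
    simp
    ring
  · have h1 : HasFDerivAt (psi h b) (0 : E →L[ℝ] ℝ) x :=
      (hasFDerivAt_const (0 : ℝ) x).congr_of_eventuallyEq (psi_eventually_zero hx)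
    refine ext_inner_right ℝ fun v => ?_
    rw [inner_gradient_left, h1.fderiv]
    simp [w_zero hx.le]

lemma measurable_gradient (f : E → ℝ) : Measurable (∇ f) := by
  have h1 : Measurable (fderiv ℝ f) := measurable_fderiv ℝ f
  have h2 : Continuous (InnerProductSpace.toDual ℝ E).symm :=
    (InnerProductSpace.toDual ℝ E).symm.continuous
  exact h2.measurable.comp h1

lemma continuousOn_gradient (hC : ContDiffOn ℝ 1 h (ball 0 R)) :
    ContinuousOn (∇ h) (ball 0 R) := by
  have h1 : ContinuousOn (fderiv ℝ h) (ball 0 R) :=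
    hC.continuousOn_fderiv_of_isOpen isOpen_ball le_rfl
  have h2 : Continuous (InnerProductSpace.toDual ℝ E).symm :=
    (InnerProductSpace.toDual ℝ E).symm.continuous
  exact h2.comp_continuousOn h1

lemma smul_maps {b : ℝ} (hb : 0 < b) (hbR : b < R) :
    MapsTo (fun x : E => b • x) (closedBall 0 1) (ball 0 R) := by
  intro x hx
  rw [mem_closedBall_zero_iff] at hx
  exact smul_mem_ball' hb hbR hx

lemma integrable_dir [IsFiniteMeasureOnCompacts μ] (hc : Conical μ P m)
    (hC : ContDiffOn ℝ 1 h (ball 0 R)) {a : ℝ} (ha : 0 < a) (haR : a < R)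
    {ψ : E → ℝ} (hψ : ContDiff ℝ 1 ψ) (hs : tsupport ψ ⊆ closedBall 0 1) :
    Integrable (fun x => ⟪P x (∇ h (a • x)), P x (∇ ψ x)⟫) μ := by
  have hmeas : AEStronglyMeasurable (fun x => ⟪P x (∇ h (a • x)), P x (∇ ψ x)⟫) μ := by
    have hm1 : Measurable (fun x : E => ∇ h (a • x)) :=
      (measurable_gradient h).comp (measurable_const_smul a)
    have hm2 : Measurable (fun x : E => ∇ ψ x) := measurable_gradient ψ
    have h1 : AEStronglyMeasurable (fun x => P x (∇ h (a • x))) μ :=
      (ContinuousLinearMap.id ℝ (E →L[ℝ] E)).aestronglyMeasurable_comp₂ hc.meas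
        hm1.aestronglyMeasurable
    have h2 : AEStronglyMeasurable (fun x => P x (∇ ψ x)) μ :=
      (ContinuousLinearMap.id ℝ (E →L[ℝ] E)).aestronglyMeasurable_comp₂ hc.meas
        hm2.aestronglyMeasurable
    exact h1.inner h2
  obtain ⟨C1, hC1⟩ := (isCompact_closedBall (0 : E) 1).exists_bound_of_continuousOn
    ((continuousOn_gradient hC).comp (continuous_const_smul a).continuousOn (smul_maps ha haR))
  have hψg : Continuous (∇ ψ) := by
    have h1 : Continuous (fderiv ℝ ψ) := hψ.continuous_fderiv one_ne_zero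
    exact (InnerProductSpace.toDual ℝ E).symm.continuous.comp h1
  obtain ⟨C2, hC2⟩ := (isCompact_closedBall (0 : E) 1).exists_bound_of_continuousOn
    hψg.continuousOn
  have hbd : Integrable ((closedBall (0 : E) 1).indicator (fun _ => C1 * C2)) μ := by
    rw [integrable_indicator_iff measurableSet_closedBall]
    exact integrableOn_const (isCompact_closedBall (0 : E) 1).measure_lt_top.ne
  refine hbd.mono' hmeas (Eventually.of_forall fun x => ?_)
  by_cases hx : x ∈ closedBall (0 : E) 1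
  · rw [indicator_of_mem hx]
    have h1 := hC1 x hx
    have h2 := hC2 x hx
    simp only [Function.comp_apply] at h1
    calc ‖⟪P x (∇ h (a • x)), P x (∇ ψ x)⟫‖ ≤ ‖P x (∇ h (a • x))‖ * ‖P x (∇ ψ x)‖ :=
          norm_inner_le_norm _ _
      _ ≤ ‖∇ h (a • x)‖ * ‖∇ ψ x‖ :=
          mul_le_mul (hc.le _ _) (hc.le _ _) (norm_nonneg _) (norm_nonneg _)
      _ ≤ C1 * C2 := mul_le_mul h1 h2 (norm_nonneg _) ((norm_nonneg _).trans h1)
  · rw [indicator_of_notMem hx]
    have h0 : ∇ ψ x = 0 := by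
      have h1 : fderiv ℝ ψ x = 0 := by
        by_contra hne
        exact hx (hs (support_fderiv_subset ℝ hne))
      refine ext_inner_right ℝ fun v => ?_
      rw [inner_gradient_left, h1]
      simp
    rw [h0]; simp

/-- the derivative of the bilinear form along `ab = const` vanishes -/
lemma green [IsFiniteMeasureOnCompacts μ] (hc : Conical μ P m) (hh : Harm μ P R h)
    (hC : ContDiffOn ℝ 1 h (ball 0 R)) {a b : ℝ} (ha : 0 < a) (hb : 0 < b) (haR : a < R)
    (hbR : b < R) :
    ∫ x, w x * (h (b • x) * (a * ⟪∇ h (a • x), x⟫) - h (a • x) * (b * ⟪∇ h (b • x), x⟫)) ∂μ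
      = 0 := by
  have hsub : ∀ {c : ℝ}, 0 < c → c < R → closedBall (0 : E) 1 ⊆ ball 0 (R / c) := by
    intro c hc hcR
    exact closedBall_subset_ball ((one_lt_div hc).mpr hcR)
  have i1 := integrable_dir hc hC ha haR (psi_contDiff hC hb hbR) (psi_tsupport b)
  have i2 := integrable_dir hc hC hb hbR (psi_contDiff hC ha haR) (psi_tsupport a)
  have z1 := hh.scale hc ha (psi_contDiff hC hb hbR) (psi_compact b)
    ((psi_tsupport b).trans (hsub ha haR))
  have z2 := hh.scale hc hb (psi_contDiff hC ha haR) (psi_compact a)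
    ((psi_tsupport a).trans (hsub hb hbR))
  have h1 : ∫ x, (a * ⟪P x (∇ h (a • x)), P x (∇ (psi h b) x)⟫
      - b * ⟪P x (∇ h (b • x)), P x (∇ (psi h a) x)⟫) ∂μ = 0 := by
    rw [integral_sub (i1.const_mul a) (i2.const_mul b), integral_const_mul, integral_const_mul,
      z1, z2]
    simp
  have h2 : ∫ x, (a * ⟪P x (∇ h (a • x)), P x (∇ (psi h b) x)⟫
      - b * ⟪P x (∇ h (b • x)), P x (∇ (psi h a) x)⟫) ∂μ
      = ∫ x, (-4) * (w x * (h (b • x) * (a * ⟪∇ h (a • x), x⟫)
        - h (a • x) * (b * ⟪∇ h (b • x), x⟫))) ∂μ := by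
    refine integral_congr_ae ?_
    filter_upwards [hc.rad] with x hx
    have h3 : ∀ u, ⟪P x u, x⟫ = ⟪u, x⟫ := fun u => by rw [hc.symm, hx]
    rw [psi_gradient hC hb hbR, psi_gradient hC ha haR]
    simp only [map_add, map_smul, inner_add_right, inner_smul_right, hx, h3]
    rw [real_inner_comm (P x (∇ h (a • x))) (P x (∇ h (b • x)))]
    ring
  rw [h2, integral_const_mul] at h1
  exact (mul_eq_zero.mp h1).resolve_left (by norm_num)

end Pool.Agent.TH337.CN
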