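import Pool.Agent.TH337.CN.Main

/-!
The local form: `V` coincides with a cone with vertex `x₀` in the ball of radius `R` about `x₀`.
-/

open MeasureTheory Set Filter Topology Metric Asymptotics
open scoped Gradient RealInnerProductSpace

namespace Pool.Agent.TH337.CN

variable {E : Type*} [NormedAddCommGroup E] [InnerProductSpace ℝ E]
  [FiniteDimensional ℝ E] [MeasurableSpace E] [BorelSpace E]
  {μ ν : Measure E} {P P' : E → E →L[ℝ] E} {m R : ℝ} {h : E → ℝ} {x₀ : E}

lemma transfer (hμ : μ.restrict (ball x₀ R) = (Measure.map (fun y => x₀ + y) ν).restrict (ball x₀ R))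
    {F : E → ℝ} (hF : ∀ x, x ∉ ball x₀ R → F x = 0) :
    ∫ x, F x ∂μ = ∫ y, F (x₀ + y) ∂ν := by
  rw [← setIntegral_eq_integral_of_forall_compl_eq_zero hF, hμ,
    setIntegral_eq_integral_of_forall_compl_eq_zero hF]
  exact (Homeomorph.addLeft x₀).measurableEmbedding.integral_map F

lemma gradient_translate (f : E → ℝ) (x₀ y : E) : ∇ (fun y => f (x₀ + y)) y = ∇ f (x₀ + y) := by
  refine ext_inner_right ℝ fun v => ?_
  rw [inner_gradient_left, inner_gradient_left, fderiv_comp_add_left]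

lemma local_harm {U : Set E} (hU : ball x₀ R ⊆ U)
    (hμ : μ.restrict (ball x₀ R) = (Measure.map (fun y => x₀ + y) ν).restrict (ball x₀ R))
    (hP : ∀ᵐ x ∂(μ.restrict (ball x₀ R)), P x = P' (x - x₀))
    (hh : ∀ φ : E → ℝ, ContDiff ℝ 1 φ → HasCompactSupport φ → tsupport φ ⊆ U →
      ∫ x, ⟪P x (∇ h x), P x (∇ φ x)⟫ ∂μ = 0) :
    Harm ν P' R (fun y => h (x₀ + y)) := by
  intro φ hφ hφc hφs
  set e : E ≃ₜ E := Homeomorph.addRight (-x₀) with he
  have he' : ∀ x, e x = x - x₀ := fun x => by simp [he, sub_eq_add_neg]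
  set φ' : E → ℝ := fun x => φ (x - x₀) with hφ'
  have hts : tsupport φ' ⊆ ball x₀ R := by
    intro x hx
    have h2 : tsupport φ' ⊆ e ⁻¹' (tsupport φ) := by
      refine closure_minimal ?_ ((isClosed_tsupport φ).preimage e.continuous)
      intro y hy
      have h3 : e y ∈ Function.support φ := by
        rw [he']; exact hy
      exact subset_tsupport φ h3
    have h3 := hφs (h2 hx)
    rw [mem_ball_zero_iff, he'] at h3
    rwa [mem_ball, dist_eq_norm]
  have hc' : HasCompactSupport φ' := by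
    have h0 : φ' = φ ∘ e := by
      funext z
      simp only [hφ', Function.comp_apply, he']
    rw [h0]
    exact hφc.comp_homeomorph e
  have h1 := hh φ' (hφ.comp (contDiff_id.sub contDiff_const)) hc' (hts.trans hU)
  have hz : ∀ x, x ∉ ball x₀ R → ∇ φ' x = 0 := by
    intro x hx
    have h2 : fderiv ℝ φ' x = 0 := by
      by_contra hne
      exact hx (hts (support_fderiv_subset ℝ hne))
    refine ext_inner_right ℝ fun v => ?_
    rw [inner_gradient_left, h2]
    simp
  have h2 : ∫ x, ⟪P x (∇ h x), P x (∇ φ' x)⟫ ∂μ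
      = ∫ x, ⟪P' (x - x₀) (∇ h x), P' (x - x₀) (∇ φ' x)⟫ ∂μ := by
    rw [← setIntegral_eq_integral_of_forall_compl_eq_zero (s := ball x₀ R)
      (f := fun x => ⟪P x (∇ h x), P x (∇ φ' x)⟫) (fun x hx => by simp [hz x hx]),
      ← setIntegral_eq_integral_of_forall_compl_eq_zero (s := ball x₀ R)
      (f := fun x => ⟪P' (x - x₀) (∇ h x), P' (x - x₀) (∇ φ' x)⟫) (fun x hx => by simp [hz x hx])]
    refine integral_congr_ae ?_
    filter_upwards [hP] with x hx
    rw [hx]
  rw [h2, transfer hμ (F := fun x => ⟪P' (x - x₀) (∇ h x), P' (x - x₀) (∇ φ' x)⟫)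
    (fun x hx => by simp [hz x hx])] at h1
  rw [← h1]
  refine integral_congr_ae (Eventually.of_forall fun y => ?_)
  simp only
  have h3 : ∇ φ y = ∇ φ' (x₀ + y) := by
    rw [← gradient_translate φ' x₀ y]
    congr 1
    funext z
    simp [hφ']
  rw [gradient_translate, h3, add_sub_cancel_left]

lemma local_cont {U : Set E} (hU : ball x₀ R ⊆ U) (hC : ContDiffOn ℝ 1 h U) :
    ContDiffOn ℝ 1 (fun y => h (x₀ + y)) (ball 0 R) := by
  refine hC.comp ((contDiff_const.add contDiff_id).contDiffOn) ?_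
  intro y hy
  apply hU
  rw [mem_ball_zero_iff] at hy
  rw [mem_ball, dist_eq_norm]
  simpa using hy

lemma local_height
    (hμ : μ.restrict (ball x₀ R) = (Measure.map (fun y => x₀ + y) ν).restrict (ball x₀ R))
    {r : ℝ} (hr0 : 0 ≤ r) (hr : r ≤ R) :
    H ν (fun y => h (x₀ + y)) r = ∫ x, max (r ^ 2 - ‖x - x₀‖ ^ 2) 0 * h x ^ 2 ∂μ := by
  rw [transfer hμ]
  · unfold H
    simp
  · intro x hx
    rw [mem_ball, dist_eq_norm, not_lt] at hx
    rw [wt_zero hr0 (hr.trans hx), zero_mul]

lemma local_vanish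
    (hμ : μ.restrict (ball x₀ R) = (Measure.map (fun y => x₀ + y) ν).restrict (ball x₀ R))
    (hR : 0 < R)
    (hv : ∀ N : ℕ, (fun r : ℝ => ∫ x in ball x₀ r, h x ^ 2 ∂μ) =o[𝓝[>] 0] fun r => r ^ N) :
    ∀ N : ℕ, (fun r : ℝ => ∫ y in ball 0 r, (fun y => h (x₀ + y)) y ^ 2 ∂ν)
      =o[𝓝[>] 0] fun r => r ^ N := by
  intro N
  refine (hv N).congr' ?_ (EventuallyEq.refl _ _)
  have h1 : Iio R ∈ 𝓝[>] (0 : ℝ) := nhdsWithin_le_nhds (Iio_mem_nhds hR)
  filter_upwards [h1] with r hr
  have hr' : r < R := hr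
  rw [← integral_indicator measurableSet_ball, ← integral_indicator measurableSet_ball]
  rw [transfer hμ (F := (ball x₀ r).indicator fun x => h x ^ 2)]
  · refine integral_congr_ae (Eventually.of_forall fun y => ?_)
    simp only
    by_cases hy : y ∈ ball (0 : E) r
    · rw [indicator_of_mem hy, indicator_of_mem]
      rw [mem_ball_zero_iff] at hy
      rw [mem_ball, dist_eq_norm]
      simpa using hy
    · rw [indicator_of_notMem hy, indicator_of_notMem]
      rw [mem_ball_zero_iff] at hy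
      rw [mem_ball, dist_eq_norm]
      simpa using hy
  · intro x hx
    refine indicator_of_notMem (fun hx' => hx (ball_subset_ball hr'.le hx')) _

lemma local_support
    (hμ : μ.restrict (ball x₀ R) = (Measure.map (fun y => x₀ + y) ν).restrict (ball x₀ R))
    {x : E} (hx : x ∈ μ.support) (hxR : x ∈ ball x₀ R) : x - x₀ ∈ ν.support := by
  rw [Measure.mem_support_iff_forall]
  intro W hW
  obtain ⟨O, hOW, hO, hxO⟩ := _root_.mem_nhds_iff.mp hW
  have hc : Continuous (fun z : E => z - x₀) := by fun_prop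
  have hS : IsOpen ((fun z : E => z - x₀) ⁻¹' O ∩ ball x₀ R) := (hO.preimage hc).inter isOpen_ball
  have h1 := (Measure.mem_support_iff_forall x).mp hx _ (hS.mem_nhds ⟨hxO, hxR⟩)
  have h2 : μ ((fun z : E => z - x₀) ⁻¹' O ∩ ball x₀ R)
      = (Measure.map (fun y => x₀ + y) ν) ((fun z : E => z - x₀) ⁻¹' O ∩ ball x₀ R) := by
    rw [← Measure.restrict_apply (hO.preimage hc).measurableSet, hμ,
      Measure.restrict_apply (hO.preimage hc).measurableSet]
  rw [h2, Measure.map_apply (by fun_prop) hS.measurableSet] at h1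
  refine h1.trans_le (measure_mono ?_)
  rintro y ⟨hy, -⟩
  apply hOW
  have : (x₀ + y) - x₀ ∈ O := hy
  rwa [add_sub_cancel_left] at this

end Pool.Agent.TH337.CN
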