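import Pool.Agent.TH337.CN.Conv

/-!
Strong unique continuation at the vertex.
-/

open MeasureTheory Set Filter Topology Metric Asymptotics
open scoped Gradient RealInnerProductSpace

namespace Pool.Agent.TH337.CN

variable {E : Type*} [NormedAddCommGroup E] [InnerProductSpace ℝ E]
  [FiniteDimensional ℝ E] [MeasurableSpace E] [BorelSpace E]
  {μ : Measure E} {P : E → E →L[ℝ] E} {m R : ℝ} {h : E → ℝ}

lemma B_nonneg (a : ℝ) : 0 ≤ B μ h a a :=
  integral_nonneg fun x => mul_nonneg (w_nonneg x) (mul_self_nonneg _)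

/-- the weighted height `∫ (r² - |x|²)₊ h²` -/
noncomputable def H (μ : Measure E) (h : E → ℝ) (r : ℝ) : ℝ :=
  ∫ x, max (r ^ 2 - ‖x‖ ^ 2) 0 * h x ^ 2 ∂μ

lemma B_eq_H (hc : Conical μ P m) {t : ℝ} (ht : 0 < t) :
    B μ h t t = t ^ (-m) * (t⁻¹ ^ 2 * H μ h t) := by
  have h1 := hc.integral_smul ht (fun y => w (t⁻¹ • y) * (h y * h y))
  have h2 : B μ h t t = ∫ x, w (t⁻¹ • (t • x)) * (h (t • x) * h (t • x)) ∂μ := by
    unfold B
    refine integral_congr_ae (Eventually.of_forall fun x => ?_)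
    simp only
    rw [smul_smul, inv_mul_cancel₀ ht.ne', one_smul]
  rw [h2, h1]
  congr 1
  unfold H
  rw [← integral_const_mul]
  refine integral_congr_ae (Eventually.of_forall fun x => ?_)
  simp only
  have h3 : w (t⁻¹ • x) = t⁻¹ ^ 2 * max (t ^ 2 - ‖x‖ ^ 2) 0 := by
    unfold w
    rw [norm_smul, norm_inv, Real.norm_eq_abs, abs_of_pos ht, mul_max_of_nonneg _ _ (by positivity),
      mul_zero]
    congr 1
    field_simp
  rw [h3]
  ring

lemma integrableOn_sq [IsFiniteMeasureOnCompacts μ]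
    (hC : ContDiffOn ℝ 1 h (ball 0 R)) {t : ℝ} (htR : t < R) :
    IntegrableOn (fun x => h x ^ 2) (closedBall 0 t) μ :=
  ((hC.continuousOn.mono (closedBall_subset_ball htR)).pow 2).integrableOn_compact
    (isCompact_closedBall _ _)

lemma integrableOn_H [IsFiniteMeasureOnCompacts μ]
    (hC : ContDiffOn ℝ 1 h (ball 0 R)) {t : ℝ} (htR : t < R) :
    IntegrableOn (fun x => max (t ^ 2 - ‖x‖ ^ 2) 0 * h x ^ 2) (closedBall 0 t) μ := by
  have h1 : Continuous (fun x : E => max (t ^ 2 - ‖x‖ ^ 2) 0) := by fun_prop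
  exact (h1.continuousOn.mul ((hC.continuousOn.mono (closedBall_subset_ball htR)).pow 2)
    ).integrableOn_compact (isCompact_closedBall _ _)

lemma wt_zero {t : ℝ} (ht : 0 ≤ t) {x : E} (hx : t ≤ ‖x‖) : max (t ^ 2 - ‖x‖ ^ 2) 0 = 0 :=
  max_eq_right (by nlinarith [norm_nonneg x])

lemma H_le [IsFiniteMeasureOnCompacts μ]
    (hC : ContDiffOn ℝ 1 h (ball 0 R)) {t : ℝ} (ht : 0 < t) (htR : t < R) :
    H μ h t ≤ t ^ 2 * ∫ x in ball 0 t, h x ^ 2 ∂μ := by
  have h1 : H μ h t = ∫ x in ball 0 t, max (t ^ 2 - ‖x‖ ^ 2) 0 * h x ^ 2 ∂μ := by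
    symm
    refine setIntegral_eq_integral_of_forall_compl_eq_zero fun x hx => ?_
    rw [mem_ball_zero_iff, not_lt] at hx
    rw [wt_zero ht.le hx, zero_mul]
  rw [h1, ← integral_const_mul]
  refine setIntegral_mono_on ((integrableOn_H hC htR).mono_set ball_subset_closedBall)
    (((integrableOn_sq hC htR).mono_set ball_subset_closedBall).const_mul _)
    measurableSet_ball fun x _ => ?_
  refine mul_le_mul_of_nonneg_right (max_le (by nlinarith [norm_nonneg x]) (by positivity))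
    (sq_nonneg _)

/-- three balls -/
lemma three_balls [IsFiniteMeasureOnCompacts μ] (hc : Conical μ P m) (hh : Harm μ P R h)
    (hC : ContDiffOn ℝ 1 h (ball 0 R)) {a b t : ℝ} (hb : 0 < b) (ht : 0 < t)
    (hta : t ≤ a) (haR : a < R) (hab : a * b = t ^ 2) :
    H μ h t ^ 2 ≤ H μ h a * H μ h b := by
  have ha : 0 < a := ht.trans_le hta
  have h1 := logconvex hc hh hC hb ht hta haR hab
  rw [B_eq_H hc ht, B_eq_H hc ha, B_eq_H hc hb] at h1
  have e1 : a ^ (-m) * b ^ (-m) = t ^ (-m) * t ^ (-m) := by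
    rw [← Real.mul_rpow ha.le hb.le, ← Real.mul_rpow ht.le ht.le, hab, sq]
  have e2 : a⁻¹ ^ 2 * b⁻¹ ^ 2 = t⁻¹ ^ 2 * t⁻¹ ^ 2 := by
    rw [← mul_pow, ← mul_inv, hab]
    ring
  have e3 : (t ^ (-m) * (t⁻¹ ^ 2 * H μ h t)) ^ 2
      = (t ^ (-m) * t ^ (-m)) * (t⁻¹ ^ 2 * t⁻¹ ^ 2) * H μ h t ^ 2 := by ring
  have e4 : a ^ (-m) * (a⁻¹ ^ 2 * H μ h a) * (b ^ (-m) * (b⁻¹ ^ 2 * H μ h b))
      = (a ^ (-m) * b ^ (-m)) * (a⁻¹ ^ 2 * b⁻¹ ^ 2) * (H μ h a * H μ h b) := by ring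
  rw [e3, e4, e1, e2] at h1
  have hp : 0 < (t ^ (-m) * t ^ (-m)) * (t⁻¹ ^ 2 * t⁻¹ ^ 2) := by
    have := Real.rpow_pos_of_pos ht (-m)
    positivity
  exact le_of_mul_le_mul_left h1 hp

lemma seq_zero {g : ℕ → ℝ} {q : ℝ} (hq0 : 0 < q) (hq1 : q < 1) (hg : ∀ k, 0 ≤ g k)
    (h1 : ∀ k, g (k + 1) ^ 2 ≤ g k * g (k + 2))
    (h2 : ∀ N : ℕ, ∃ C : ℝ, ∀ᶠ k in atTop, g k ≤ C * (q ^ N) ^ k) : g 1 = 0 := by
  by_contra hne
  have hpos1 : 0 < g 1 := lt_of_le_of_ne (hg 1) (Ne.symm hne)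
  have hpos0 : 0 < g 0 := by
    rcases (hg 0).eq_or_lt with h | h
    · have := h1 0
      rw [← h, zero_mul] at this
      nlinarith
    · exact h
  set r := g 1 / g 0 with hr
  have hr0 : 0 < r := div_pos hpos1 hpos0
  have key : ∀ k, 0 < g k ∧ r * g k ≤ g (k + 1) := by
    intro k
    induction k with
    | zero => exact ⟨hpos0, by rw [hr, div_mul_cancel₀ _ hpos0.ne']⟩
    | succ k ih =>
      obtain ⟨hk, hk'⟩ := ih
      have hk1 : 0 < g (k + 1) := lt_of_lt_of_le (mul_pos hr0 hk) hk'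
      refine ⟨hk1, ?_⟩
      have h3 := h1 k
      have h4 : g k * (r * g (k + 1)) ≤ g k * g (k + 2) := by nlinarith
      exact le_of_mul_le_mul_left h4 hk
  have hlow : ∀ k, g 0 * r ^ k ≤ g k := by
    intro k
    induction k with
    | zero => simp
    | succ k ih =>
      have := (key k).2
      calc g 0 * r ^ (k + 1) = r * (g 0 * r ^ k) := by ring
        _ ≤ r * g k := mul_le_mul_of_nonneg_left ih hr0.le
        _ ≤ g (k + 1) := this
  obtain ⟨N, hN⟩ := exists_pow_lt_of_lt_one hr0 hq1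
  obtain ⟨C, hC⟩ := h2 N
  have hlim : Tendsto (fun k : ℕ => C * (q ^ N / r) ^ k) atTop (𝓝 0) := by
    have h5 : Tendsto (fun k : ℕ => (q ^ N / r) ^ k) atTop (𝓝 0) :=
      tendsto_pow_atTop_nhds_zero_of_lt_one (by positivity) ((div_lt_one hr0).mpr hN)
    simpa using h5.const_mul C
  have hle : ∀ᶠ k in atTop, g 0 ≤ C * (q ^ N / r) ^ k := by
    filter_upwards [hC] with k hk
    have h6 := (hlow k).trans hk
    have h7 : 0 < r ^ k := pow_pos hr0 k
    rw [div_pow, ← mul_div_assoc, le_div_iff₀ h7]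
    exact h6
  have h8 : g 0 ≤ 0 := ge_of_tendsto hlim hle
  linarith

lemma H_nonneg (t : ℝ) : 0 ≤ H μ h t :=
  integral_nonneg fun x => mul_nonneg (le_max_right _ _) (sq_nonneg _)

lemma H_eq_zero [IsFiniteMeasureOnCompacts μ] (hc : Conical μ P m) (hh : Harm μ P R h)
    (hC : ContDiffOn ℝ 1 h (ball 0 R))
    (hv : ∀ N : ℕ, (fun r : ℝ => ∫ x in ball 0 r, h x ^ 2 ∂μ) =o[𝓝[>] 0] fun r => r ^ N)
    {t : ℝ} (ht : 0 < t) (htR : t < R) : H μ h t = 0 := by
  obtain ⟨a, hta, haR⟩ := exists_between htR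
  have ha : 0 < a := ht.trans hta
  set q := t / a with hq
  have hq0 : 0 < q := div_pos ht ha
  have hq1 : q < 1 := (div_lt_one ha).mpr hta
  have hpk : ∀ k : ℕ, 0 < a * q ^ k := fun k => mul_pos ha (pow_pos hq0 k)
  have hlek : ∀ k : ℕ, a * q ^ k ≤ a := fun k => by
    have := pow_le_one₀ hq0.le hq1.le (n := k)
    nlinarith
  have hg1 : (fun k : ℕ => H μ h (a * q ^ k)) 1 = H μ h t := by
    simp only [pow_one, hq, mul_div_cancel₀ _ ha.ne']
  rw [← hg1]
  refine seq_zero (g := fun k : ℕ => H μ h (a * q ^ k)) hq0 hq1 (fun k => H_nonneg _) ?_ ?_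
  · intro k
    refine three_balls (a := a * q ^ k) (b := a * q ^ (k + 2)) (t := a * q ^ (k + 1)) hc hh hC
      (hpk _) (hpk _) ?_ ((hlek k).trans_lt haR) (by ring)
    rw [pow_succ]
    have := hpk k
    nlinarith
  · intro N
    have htend : Tendsto (fun k : ℕ => a * q ^ k) atTop (𝓝[>] 0) := by
      refine tendsto_nhdsWithin_iff.mpr ⟨?_, Eventually.of_forall fun k => hpk k⟩
      have h5 := (tendsto_pow_atTop_nhds_zero_of_lt_one hq0.le hq1).const_mul a
      simpa using h5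
    refine ⟨a ^ 2 * a ^ N, ?_⟩
    have h6 := htend.eventually ((hv N).def zero_lt_one)
    filter_upwards [h6] with k hk
    have h7 := H_le (μ := μ) hC (hpk k) ((hlek k).trans_lt haR)
    rw [one_mul, Real.norm_eq_abs, Real.norm_eq_abs, abs_of_pos (pow_pos (hpk k) N)] at hk
    have h8 := (le_abs_self _).trans hk
    have h9 : (a * q ^ k) ^ 2 ≤ a ^ 2 :=
      pow_le_pow_left₀ (hpk k).le (hlek k) 2
    have h10 : 0 < (a * q ^ k) ^ N := pow_pos (hpk k) N
    calc H μ h (a * q ^ k) ≤ (a * q ^ k) ^ 2 * ∫ x in ball 0 (a * q ^ k), h x ^ 2 ∂μ := h7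
      _ ≤ (a * q ^ k) ^ 2 * (a * q ^ k) ^ N :=
          mul_le_mul_of_nonneg_left h8 (sq_nonneg _)
      _ ≤ a ^ 2 * (a * q ^ k) ^ N := mul_le_mul_of_nonneg_right h9 h10.le
      _ = a ^ 2 * a ^ N * (q ^ N) ^ k := by
          rw [mul_pow, ← pow_mul, ← pow_mul, mul_comm k N]; ring

/-- strong unique continuation at the vertex -/
theorem suc [IsFiniteMeasureOnCompacts μ] (hc : Conical μ P m) (hh : Harm μ P R h)
    (hC : ContDiffOn ℝ 1 h (ball 0 R))
    (hv : ∀ N : ℕ, (fun r : ℝ => ∫ x in ball 0 r, h x ^ 2 ∂μ) =o[𝓝[>] 0] fun r => r ^ N)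
    {x : E} (hx : x ∈ μ.support) (hxR : x ∈ ball (0 : E) R) : h x = 0 := by
  by_contra hne
  rw [mem_ball_zero_iff] at hxR
  obtain ⟨t, hxt, htR⟩ := exists_between hxR
  have ht : 0 < t := (norm_nonneg x).trans_lt hxt
  have h0 := H_eq_zero hc hh hC hv ht htR
  have hint : Integrable (fun x => max (t ^ 2 - ‖x‖ ^ 2) 0 * h x ^ 2) μ := by
    rw [← integrableOn_iff_integrable_of_support_subset (s := closedBall (0 : E) t)]
    · exact integrableOn_H hC htR
    · intro y hy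
      by_contra hy'
      rw [mem_closedBall_zero_iff, not_le] at hy'
      exact hy (by simp only [wt_zero ht.le hy'.le, zero_mul])
  have hae := (integral_eq_zero_iff_of_nonneg
    (fun x => mul_nonneg (le_max_right _ _) (sq_nonneg _)) hint).mp h0
  have hcont : ContinuousAt h x :=
    hC.continuousOn.continuousAt (isOpen_ball.mem_nhds (mem_ball_zero_iff.mpr hxR))
  have hn : {y : E | h y ≠ 0 ∧ ‖y‖ < t} ∈ 𝓝 x := by
    have n1 : ∀ᶠ y in 𝓝 x, h y ≠ 0 := hcont.eventually_ne hne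
    have n2 : ∀ᶠ y in 𝓝 x, ‖y‖ < t := continuous_norm.continuousAt.eventually_lt
      continuousAt_const hxt
    exact n1.and n2
  have hpos := (Measure.mem_support_iff_forall x).mp hx _ hn
  have hzero : μ {y : E | h y ≠ 0 ∧ ‖y‖ < t} = 0 := by
    refine measure_mono_null ?_ (ae_iff.mp hae)
    rintro y ⟨hy1, hy2⟩ hy3
    simp only [Pi.zero_apply] at hy3
    have h11 : 0 < max (t ^ 2 - ‖y‖ ^ 2) 0 :=
      lt_max_of_lt_left (by nlinarith [norm_nonneg y])
    have h12 : 0 < h y ^ 2 := by positivity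
    exact (mul_pos h11 h12).ne' hy3
  rw [hzero] at hpos
  exact lt_irrefl _ hpos

end Pool.Agent.TH337.CN
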